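import Pool.Agent.Helper12.G.R_seed8.W619.PQ.Fix

/-! Transcendence degree of composita of function fields of curves. -/

set_option autoImplicit false
set_option linter.overlappingInstances false
set_option linter.unusedSectionVars false

open Polynomial FF IntermediateField

namespace Pool.Agent.W619.PQ

open Pool.Agent.W603.LV

section

variable {k L : Type*} [Field k] [Field L] [Algebra k L]

theorem alg_of_mem (F : IntermediateField k L) [IsFF k F] {x : F} (hx : Transcendental k x)
    (S : IntermediateField k L) (hxS : (x : L) ∈ S) (z : F) : IsAlgebraic S (z : L) := by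
  have h := (IsFF.isAlgebraic hx).isAlgebraic z
  have hle : k⟮x⟯ ≤ S.comap F.val := by
    rw [adjoin_simple_le_iff]
    exact hxS
  let f : k⟮x⟯ →+* S := ((F.val : F →+* L).comp (algebraMap k⟮x⟯ F)).codRestrict S fun y => hle y.2
  exact h.ringHom_of_comp_eq f (F.val : F →+* L) f.injective (by ext y; rfl)

theorem alg_iSup {ι : Type*} (F : ι → IntermediateField k L) [∀ i, IsFF k (F i)] (x : ∀ i, F i)
    (hx : ∀ i, Transcendental k (x i)) {z : L} (hz : z ∈ ⨆ i, F i) :
    IsAlgebraic (adjoin k (Set.range fun i => (x i : L))) z := by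
  let S : IntermediateField k L := adjoin k (Set.range fun i => (x i : L))
  have hle : ⨆ i, F i ≤ (algebraicClosure S L).restrictScalars k := by
    refine iSup_le fun i y hy => ?_
    rw [mem_restrictScalars, mem_algebraicClosure_iff]
    exact alg_of_mem (F i) (hx i) S (subset_adjoin k _ ⟨i, rfl⟩) ⟨y, hy⟩
  have := hle hz
  rwa [mem_restrictScalars, mem_algebraicClosure_iff] at this

theorem alg_adjoin {S : Set L} (h : ∀ z : L, IsAlgebraic (IntermediateField.adjoin k S) z) :
    Algebra.IsAlgebraic (Algebra.adjoin k S) L := by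
  have h1 : Algebra.IsAlgebraic (IntermediateField.adjoin k S) L := ⟨h⟩
  open scoped algebraAdjoinAdjoin in
  have h4 : Algebra.IsAlgebraic (Algebra.adjoin k S) (IntermediateField.adjoin k S) := inferInstance
  open scoped algebraAdjoinAdjoin in
  exact Algebra.IsAlgebraic.trans (Algebra.adjoin k S) (IntermediateField.adjoin k S) L

theorem basis_of_iSup {n : ℕ} (F : Fin n → IntermediateField k L) [∀ i, IsFF k (F i)]
    (hsup : ⨆ i, F i = ⊤) (hn : Algebra.trdeg k L = n) (x : ∀ i, F i)
    (hx : ∀ i, Transcendental k (x i)) : IsTranscendenceBasis k (fun i => (x i : L)) := by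
  have h1 : Algebra.IsAlgebraic (Algebra.adjoin k (Set.range fun i => (x i : L))) L :=
    alg_adjoin fun z => alg_iSup F x hx (by rw [hsup]; trivial)
  refine Algebra.IsAlgebraic.isTranscendenceBasis_of_lift_le_trdeg_of_finite k _ ?_
  rw [hn]
  simp

theorem basis_down {K : Type*} [Field K] [Algebra k K] [Algebra K L] [IsScalarTower k K L] {n : ℕ}
    (hn : Algebra.trdeg k L = n) (x : Fin n → K)
    (hx : IsTranscendenceBasis k (fun i => algebraMap K L (x i))) : IsTranscendenceBasis k x := by
  have h1 : AlgebraicIndependent k x := hx.1.of_comp (IsScalarTower.toAlgHom k K L)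
  refine h1.isTranscendenceBasis_of_lift_trdeg_le_of_finite ?_
  have h2 := lift_trdeg_le_of_injective (IsScalarTower.toAlgHom k K L)
    (algebraMap K L).injective
  rw [hn] at h2
  simp only [Cardinal.lift_natCast, Cardinal.lift_le_nat_iff] at h2
  simpa using h2

/-- If one factor is rational then the quotient is uniruled. -/
theorem rational_factor {n : ℕ} (F : Fin n → IntermediateField k L) [∀ i, IsFF k (F i)]
    (hsup : ⨆ i, F i = ⊤) (hn : Algebra.trdeg k L = n) (i0 : Fin n) (t : F i0)
    (ht : k⟮t⟯ = ⊤) : ∃ M : IntermediateField k L, Algebra.EssFiniteType k M ∧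
      Algebra.trdeg k M + 1 = n ∧ Transcendental M (t : L) ∧ M⟮(t : L)⟯ = ⊤ := by
  classical
  let ι := {j : Fin n // j ≠ i0}
  let M : IntermediateField k L := ⨆ j : ι, F j.1
  have htop : M⟮(t : L)⟯ = ⊤ := by
    have h1 : (⊤ : IntermediateField k L) ≤ M⟮(t : L)⟯.restrictScalars k := by
      rw [← hsup]
      refine iSup_le fun j z hz => ?_
      rw [mem_restrictScalars]
      by_cases hj : j = i0
      · subst hj
        have h2 : (⟨z, hz⟩ : F j) ∈ k⟮t⟯ := by rw [ht]; trivial
        have h3 : k⟮t⟯ ≤ (M⟮(t : L)⟯.restrictScalars k).comap (F j).val := by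
          rw [adjoin_simple_le_iff]
          exact mem_adjoin_simple_self M _
        exact h3 h2
      · have h2 : z ∈ M := (le_iSup (fun j : ι => F j.1) ⟨j, hj⟩) hz
        exact M⟮(t : L)⟯.algebraMap_mem ⟨z, h2⟩
    rw [eq_top_iff]
    intro z _
    exact h1 (by trivial : z ∈ (⊤ : IntermediateField k L))
  have htt : Transcendental M (t : L) := by
    intro halg
    choose x hx using fun i => IsFF.exists_transcendental (k := k) (K := F i)
    let S : IntermediateField k L := adjoin k (Set.range fun j : ι => (x j.1 : L))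
    let A : IntermediateField S L := algebraicClosure S L
    have hMA : ∀ z ∈ M, z ∈ A := by
      intro z hz
      rw [mem_algebraicClosure_iff]
      exact alg_iSup (fun j : ι => F j.1) (fun j => x j.1) (fun j => hx j.1) hz
    let f : M →+* A := (algebraMap M L).codRestrict A fun z => hMA z z.2
    have htA : IsAlgebraic A (t : L) :=
      halg.ringHom_of_comp_eq f (RingHom.id L) f.injective (by ext z; rfl)
    have htA2 : IsAlgebraic S (t : L) := htA.restrictScalars S
    have hLA : ∀ z : L, IsAlgebraic S z := by
      intro z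
      have h1 : Algebra.IsAlgebraic M M⟮(t : L)⟯ := isAlgebraic_adjoin_simple halg.isIntegral
      have h2 : IsAlgebraic M z := by
        have hz : z ∈ M⟮(t : L)⟯ := by rw [htop]; trivial
        exact (h1.isAlgebraic ⟨z, hz⟩).algebraMap (A := L)
      have h3 : IsAlgebraic A z :=
        h2.ringHom_of_comp_eq f (RingHom.id L) f.injective (by ext z; rfl)
      exact h3.restrictScalars S
    have h4 := alg_adjoin hLA
    have h5 := Algebra.IsAlgebraic.trdeg_le_cardinalMk k (Set.range fun j : ι => (x j.1 : L))
    rw [hn] at h5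
    have h6 : Cardinal.mk (Set.range fun j : ι => (x j.1 : L)) ≤ ((n - 1 : ℕ) : Cardinal) := by
      have h7 : Cardinal.lift.{0} (Cardinal.mk (Set.range fun j : ι => (x j.1 : L))) ≤
          Cardinal.lift (Cardinal.mk ι) := Cardinal.mk_range_le_lift
      have h8 : Fintype.card ι = n - 1 := by
        rw [Fintype.card_subtype_compl, Fintype.card_fin, Fintype.card_subtype_eq]
      rw [Cardinal.mk_fintype ι, h8] at h7
      simpa using h7
    have h7 : n ≤ n - 1 := by exact_mod_cast h5.trans h6
    have h8 : 0 < n := i0.pos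
    omega
  have hFF : IsFF M L := by
    refine IsFF.of_finite htt ?_
    rw [htop]
    exact Module.Finite.of_surjective (Algebra.linearMap (⊤ : IntermediateField M L) L)
      fun z => ⟨⟨z, trivial⟩, rfl⟩
  refine ⟨M, essFiniteType_iff.2 (fg_iSup fun j => essFiniteType_iff.1 (IsFF.ess)), ?_, htt, htop⟩
  rw [← hn, ← trdeg_add_eq k M (A := L), hFF.trdeg]

end

end Pool.Agent.W619.PQ
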