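import Pool.Agent.Helper12.G.R_seed8.W603.LV.Ex

/-! Weak approximation for finitely many places. -/

set_option autoImplicit false

open Polynomial FF

namespace Pool.Agent.W619.PQ

open Pool.Agent.W603.LV

variable {k K : Type*} [Field k] [Field K] [Algebra k K]

/-- `P.ord f ≥ N` with a convenient form for nonzero elements -/
theorem ge_of {P : Place k K} {N : ℤ} {f : K} (h : N ≤ P.ord f) : Ge P N f := Or.inr h

theorem sep_two {P Q : Place k K} (h : P ≠ Q) :
    ∃ z : K, z ≠ 0 ∧ P.ord z < 0 ∧ 0 < Q.ord z := by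
  have h1 : ¬ ∀ f : K, f ≠ 0 → 0 ≤ P.ord f → 0 ≤ Q.ord f := fun hh => h (Place.eq_of_le P Q hh)
  have h2 : ¬ ∀ f : K, f ≠ 0 → 0 ≤ Q.ord f → 0 ≤ P.ord f := fun hh => h (Place.eq_of_le Q P hh).symm
  push Not at h1 h2
  obtain ⟨f, hf, hf1, hf2⟩ := h1
  obtain ⟨g, hg, hg1, hg2⟩ := h2
  refine ⟨g / f, div_ne_zero hg hf, ?_, ?_⟩
  · rw [P.ord_div hg hf]; omega
  · rw [Q.ord_div hg hf]; omega

theorem ord_one_add_of_neg {P : Place k K} {z : K} (hz : z ≠ 0) (h : P.ord z < 0) :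
    1 + z ≠ 0 ∧ P.ord (1 + z) = P.ord z := by
  have := P.ord_add_eq (f := z) (g := 1) hz one_ne_zero (by rw [P.ord_one]; exact h)
  rwa [add_comm] at this

theorem ord_one_add_of_pos {P : Place k K} {z : K} (hz : z ≠ 0) (h : 0 < P.ord z) :
    1 + z ≠ 0 ∧ P.ord (1 + z) = 0 := by
  have := P.ord_add_eq (f := 1) (g := z) one_ne_zero hz (by rw [P.ord_one]; exact h)
  rwa [P.ord_one] at this

theorem sep_many (S : Finset (Place k K)) : ∀ P : Place k K, P ∉ S →
    ∃ z : K, z ≠ 0 ∧ P.ord z < 0 ∧ ∀ Q ∈ S, 0 < Q.ord z := by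
  classical
  induction S using Finset.induction_on with
  | empty =>
    intro P _
    obtain ⟨t, ht0, ht⟩ := P.surj
    exact ⟨t⁻¹, inv_ne_zero ht0, by rw [P.ord_inv]; omega, by simp⟩
  | insert Q S hQ ih =>
    intro P hP
    have hPQ : P ≠ Q := fun h => hP (by simp [h])
    have hPS : P ∉ S := fun h => hP (by simp [h])
    obtain ⟨z, hz0, hzP, hzS⟩ := ih P hPS
    obtain ⟨y, hy0, hyP, hyQ⟩ := sep_two hPQ
    -- a large exponent
    obtain ⟨r, hr⟩ : ∃ r : ℕ, 1 ≤ r ∧ ∀ R ∈ S, - R.ord y < r := by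
      refine ⟨1 + ∑ R ∈ S, (- R.ord y).toNat, by omega, fun R hR => ?_⟩
      have := Finset.single_le_sum (f := fun R : Place k K => (- R.ord y).toNat)
        (fun _ _ => Nat.zero_le _) hR
      omega
    have hr0 : (0 : ℤ) < r := by exact_mod_cast hr.1
    have hzr : z ^ r ≠ 0 := pow_ne_zero _ hz0
    have hS : ∀ R ∈ S, 0 < R.ord (z ^ r) + R.ord y := by
      intro R hR
      rw [R.ord_pow]
      have h1 := hzS R hR
      have h2 := hr.2 R hR
      have h3 : (r : ℤ) * 1 ≤ r * R.ord z := by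
        apply mul_le_mul_of_nonneg_left _ hr0.le
        omega
      omega
    rcases lt_or_ge (Q.ord z) 0 with hQz | hQz
    · -- use z^r/(1+z^r) * y
      have hP1 := ord_one_add_of_neg (P := P) hzr (by rw [P.ord_pow]; exact mul_neg_of_pos_of_neg hr0 hzP)
      have hQ1 := ord_one_add_of_neg (P := Q) hzr (by rw [Q.ord_pow]; exact mul_neg_of_pos_of_neg hr0 hQz)
      refine ⟨z ^ r / (1 + z ^ r) * y, mul_ne_zero (div_ne_zero hzr hP1.1) hy0, ?_, ?_⟩
      · rw [P.ord_mul (div_ne_zero hzr hP1.1) hy0, P.ord_div hzr hP1.1, hP1.2]; omega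
      · intro R hR
        rw [R.ord_mul (div_ne_zero hzr hP1.1) hy0, R.ord_div hzr hP1.1]
        rcases Finset.mem_insert.1 hR with rfl | hR
        · rw [hQ1.2]; omega
        · have h4 : 0 < R.ord (z ^ r) := by
            rw [R.ord_pow]; exact mul_pos hr0 (hzS R hR)
          have h5 := ord_one_add_of_pos hzr h4
          rw [h5.2]
          have := hS R hR
          omega
    · refine ⟨z ^ r * y, mul_ne_zero hzr hy0, ?_, ?_⟩
      · rw [P.ord_mul hzr hy0, P.ord_pow]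
        have : (r : ℤ) * P.ord z < 0 := mul_neg_of_pos_of_neg hr0 hzP
        omega
      · intro R hR
        rw [R.ord_mul hzr hy0]
        rcases Finset.mem_insert.1 hR with rfl | hR
        · rw [R.ord_pow]
          have : 0 ≤ (r : ℤ) * R.ord z := mul_nonneg hr0.le hQz
          omega
        · exact hS R hR

/-- Weak approximation: an element close to `a` at `P` and close to `0` at the places of `S`. -/
theorem approx_one (S : Finset (Place k K)) (P : Place k K) (hP : P ∉ S) (a : K) (N : ℤ) :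
    ∃ b : K, Ge P N (b - a) ∧ ∀ Q ∈ S, Ge Q N b := by
  classical
  by_cases ha : a = 0
  · exact ⟨0, by rw [ha, sub_zero]; exact Or.inl rfl, fun Q _ => Or.inl rfl⟩
  obtain ⟨z, hz0, hzP, hzS⟩ := sep_many S P hP
  obtain ⟨r, hr⟩ : ∃ r : ℕ, 1 ≤ r ∧ N - P.ord a ≤ r ∧ ∀ R ∈ S, N - R.ord a ≤ r := by
    refine ⟨1 + (N - P.ord a).toNat + ∑ R ∈ S, (N - R.ord a).toNat, by omega, by
      have : 0 ≤ ∑ R ∈ S, (N - R.ord a).toNat := Nat.zero_le _
      omega, fun R hR => ?_⟩
    have := Finset.single_le_sum (f := fun R : Place k K => (N - R.ord a).toNat)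
      (fun _ _ => Nat.zero_le _) hR
    omega
  have hr0 : (0 : ℤ) < r := by exact_mod_cast hr.1
  have hzr : z ^ r ≠ 0 := pow_ne_zero _ hz0
  have hPr : P.ord (z ^ r) ≤ - r := by
    rw [P.ord_pow]
    have : (r : ℤ) * P.ord z ≤ r * (-1) := by
      apply mul_le_mul_of_nonneg_left _ hr0.le; omega
    omega
  have hP1 := ord_one_add_of_neg (P := P) hzr (by omega)
  refine ⟨a * (z ^ r / (1 + z ^ r)), ?_, ?_⟩
  · right
    have h1 : a * (z ^ r / (1 + z ^ r)) - a = a * (-(1 + z ^ r)⁻¹) := by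
      field_simp [hP1.1]; ring
    rw [h1, P.ord_mul ha (neg_ne_zero.2 (inv_ne_zero hP1.1)), P.ord_neg, P.ord_inv, hP1.2]
    omega
  · intro Q hQ
    right
    rw [Q.ord_mul ha (div_ne_zero hzr hP1.1), Q.ord_div hzr hP1.1]
    have h4 : (r : ℤ) ≤ Q.ord (z ^ r) := by
      rw [Q.ord_pow]
      have : (r : ℤ) * 1 ≤ r * Q.ord z := by
        apply mul_le_mul_of_nonneg_left _ hr0.le
        have := hzS Q hQ
        omega
      omega
    have h5 := ord_one_add_of_pos hzr (by omega : 0 < Q.ord (z ^ r))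
    rw [h5.2]
    have := hr.2.2 Q hQ
    omega

end Pool.Agent.W619.PQ
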