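import Pool.Agent.Helper12.G.R_seed8.W619.PQ.Tr

/-! Wedge products of logarithmic differentials have at most simple poles. -/

set_option autoImplicit false
set_option linter.overlappingInstances false
set_option linter.unusedSectionVars false

open Polynomial FF

namespace Pool.Agent.W619.PQ

open Pool.Agent.W603.LV

section

variable {k K : Type*} [Field k] [Field K] [Algebra k K]

/-- The derivation maps the valuation ring into itself. -/
def Pres (v : Place k K) (D : Derivation k K K) : Prop := ∀ f, v.Reg f → v.Reg (D f)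

theorem ge_det {ι : Type*} [Fintype ι] [DecidableEq ι] (v : Place k K) (A : Matrix ι ι K)
    (hA : ∀ i j, Ge v 0 (A i j)) : Ge v 0 A.det := by
  let B : Matrix ι ι v.O := fun i j => ⟨A i j, hA i j⟩
  have h : A = v.O.subtype.mapMatrix B := by
    ext i j; rfl
  rw [h, ← RingHom.map_det]
  exact (B.det).2

theorem der_unit {v : Place k K} {D : Derivation k K K} (hD : Pres v D) {u : K} (hu : v.ord u = 0) :
    Ge v 0 (D u / u) := by
  by_cases hu0 : u = 0
  · left; rw [hu0, div_zero]
  have h1 : Ge v 0 (D u) := hD u (Or.inr hu.ge)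
  have h2 : Ge v 0 u⁻¹ := Or.inr (by rw [v.ord_inv, hu]; simp)
  rw [div_eq_mul_inv]
  simpa using h1.mul h2

theorem dlog_mul (D : Derivation k K K) {a b : K} (ha : a ≠ 0) (hb : b ≠ 0) :
    D (a * b) / (a * b) = D a / a + D b / b := by
  rw [D.leibniz, smul_eq_mul, smul_eq_mul]
  field_simp
  ring

theorem dlog_zpow (D : Derivation k K K) {a : K} (ha : a ≠ 0) (n : ℤ) :
    D (a ^ n) / a ^ n = n * (D a / a) := by
  rw [Derivation.leibniz_zpow]
  simp only [smul_eq_mul, zsmul_eq_mul]
  rw [show a ^ n = a ^ (n - 1) * a by rw [← zpow_add_one₀ ha]; congr 1; ring]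
  have := zpow_ne_zero (n - 1) ha
  field_simp

theorem det_log_unit {n : ℕ} (v : Place k K) (D : Fin n → Derivation k K K)
    (hD : ∀ j, Pres v (D j)) (z : Fin n → K) (hz : ∀ i, v.ord (z i) = 0) :
    Ge v 0 (Matrix.det (Matrix.of fun j i => D j (z i) / z i)) :=
  ge_det v _ fun j i => der_unit (hD j) (hz i)

theorem det_log {n : ℕ} (v : Place k K) (D : Fin n → Derivation k K K)
    (hD : ∀ j, Pres v (D j)) (z : Fin n → K) (hz : ∀ i, z i ≠ 0) :
    Ge v (-1) (Matrix.det (Matrix.of fun j i => D j (z i) / z i)) := by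
  classical
  obtain ⟨π, hπ0, hπ⟩ := v.surj
  let u : Fin n → K := fun i => z i * π ^ (-(v.ord (z i)))
  have hu0 : ∀ i, u i ≠ 0 := fun i => mul_ne_zero (hz i) (zpow_ne_zero _ hπ0)
  have hu : ∀ i, v.ord (u i) = 0 := by
    intro i
    rw [v.ord_mul (hz i) (zpow_ne_zero _ hπ0), v.ord_zpow, hπ]; ring
  have hzu : ∀ i, z i = u i * π ^ (v.ord (z i)) := by
    intro i
    change z i = z i * π ^ (-(v.ord (z i))) * π ^ (v.ord (z i))
    rw [mul_assoc, ← zpow_add₀ hπ0]; simp
  let M : Matrix (Fin n) (Fin n) K := Matrix.of fun j i => D j (u i) / u i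
  let C : Matrix (Fin n) Unit K := Matrix.of fun j _ => D j π / π
  let R : Matrix Unit (Fin n) K := Matrix.of fun _ i => -((v.ord (z i) : ℤ) : K)
  have h1 : Matrix.of (fun j i => D j (z i) / z i) = M - C * R := by
    ext j i
    rw [Matrix.sub_apply, Matrix.mul_apply]
    simp only [M, C, R, Matrix.of_apply, Finset.univ_unique, Finset.sum_singleton]
    conv_lhs => rw [hzu i]
    rw [dlog_mul (D j) (hu0 i) (zpow_ne_zero _ hπ0), dlog_zpow (D j) hπ0]
    ring
  have h2 : (Matrix.of fun j i => D j (z i) / z i).det =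
      (Matrix.fromBlocks (1 : Matrix Unit Unit K) R C M).det := by
    rw [Matrix.det_fromBlocks_one₁₁, h1]
  -- scale the first column
  let Δ : Matrix (Unit ⊕ Fin n) (Unit ⊕ Fin n) K :=
    Matrix.fromBlocks (Matrix.of fun _ _ => π) 0 0 1
  have hΔ : Δ.det = π := by
    rw [Matrix.det_fromBlocks_zero₂₁]
    simp
  have h3 : (Matrix.fromBlocks (1 : Matrix Unit Unit K) R C M) * Δ =
      Matrix.fromBlocks (Matrix.of fun _ _ => π) R (Matrix.of fun j _ => D j π) M := by
    rw [Matrix.fromBlocks_multiply]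
    congr 1
    · ext i j; simp
    · simp
    · ext j i
      simp only [Matrix.mul_zero, add_zero, Matrix.mul_apply, C, Matrix.of_apply,
        Finset.univ_unique, Finset.sum_singleton]
      field_simp
    · simp
  have h4 : Ge v 0 (Matrix.fromBlocks (Matrix.of fun _ _ => π) R
      (Matrix.of fun j _ => D j π) M).det := by
    apply ge_det
    rintro (i | i) (j | j)
    · simp only [Matrix.fromBlocks_apply₁₁, Matrix.of_apply]
      exact Or.inr (by omega)
    · simp only [Matrix.fromBlocks_apply₁₂, R, Matrix.of_apply]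
      have := (Ge.intCast (P := v) (v.ord (z j))).neg
      exact this
    · simp only [Matrix.fromBlocks_apply₂₁, Matrix.of_apply]
      exact hD i π (Or.inr (by omega))
    · simp only [Matrix.fromBlocks_apply₂₂, M, Matrix.of_apply]
      exact der_unit (hD i) (hu j)
  rw [← h3, Matrix.det_mul, hΔ, ← h2, mul_comm] at h4
  have := Ge.of_mul' (P := v) (N := -1) (m := 1) hπ0 hπ (by simpa using h4)
  exact this

end

end Pool.Agent.W619.PQ
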