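import Pool.Agent.Helper12.G.R_seed8.W619.PQ.Tr

/-! Inertia groups of places under finite groups of automorphisms. -/

set_option autoImplicit false
set_option linter.overlappingInstances false
set_option linter.unusedSectionVars false

open Polynomial FF IsDedekindDomain IntermediateField

namespace Pool.Agent.W619.PQ

open Pool.Agent.W603.LV

section

variable {k L : Type*} [Field k] [Field L] [Algebra k L] (G : Subgroup (L ≃ₐ[k] L))

theorem isGaloisGroup_fixed : IsGaloisGroup G (fixedField G) L where
  faithful := inferInstance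
  commutes := ⟨fun g a z => by
    rw [Algebra.smul_def, Algebra.smul_def, smul_mul']
    congr 1
    exact a.2 g⟩
  isInvariant := ⟨fun z hz => ⟨⟨z, fun g => hz g⟩, rfl⟩⟩

/-- `g` belongs to the inertia group of the place `w`. -/
def Inert (w : Place k L) (g : L ≃ₐ[k] L) : Prop := ∀ z, Ge w 0 z → Ge w 1 (g z - z)

/-- The extension of a place of the fixed field, and its inertia group. -/
theorem exists_inertia [CharZero k] [Finite G] (v : Place k (fixedField G)) :
    ∃ (w : Place k L) (e : ℕ) (I : Subgroup G), Over w v e ∧ Nat.card I = e ∧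
      ∀ g ∈ I, Inert w (g : L ≃ₐ[k] L) := by
  classical
  let K := fixedField G
  have hGal : IsGaloisGroup G K L := isGaloisGroup_fixed G
  have hfd : FiniteDimensional K L := IsGaloisGroup.finiteDimensional G K L
  have hcomm : SMulCommClass G K L := hGal.commutes
  let iA : Algebra v.O L := algO v
  let ik : Algebra k v.O := algk v
  obtain ⟨t, ht0, ht⟩ := v.surj
  have htr : v.Reg t := Or.inr (by omega)
  have htF : algebraMap K L t ≠ 0 := by simpa using ht0
  have : IsDiscreteValuationRing v.O := v.isDVR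
  have : CharZero K := charZero_of_injective_algebraMap (algebraMap k K).injective
  have : IsScalarTower v.O K L := IsScalarTower.of_algebraMap_eq fun _ => rfl
  have : IsScalarTower k v.O L := IsScalarTower.of_algebraMap_eq fun c => by
    rw [IsScalarTower.algebraMap_apply k K L]
    rfl
  have hcomm' : SMulCommClass G v.O L := ⟨fun g a z => by
    rw [Algebra.smul_def, Algebra.smul_def, smul_mul']
    congr 1
    exact (a : K).2 g⟩
  let B := integralClosure v.O L
  have : IsDedekindDomain B := integralClosure.isDedekindDomain v.O K L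
  have : IsFractionRing B L := integralClosure.isFractionRing_of_finite_extension K L
  have hfin : Module.Finite v.O B := IsIntegralClosure.finite v.O K L B
  have hinj : Function.Injective (algebraMap v.O L) := by
    rw [IsScalarTower.algebraMap_eq v.O K L]
    exact (algebraMap K L).injective.comp (IsFractionRing.injective v.O K)
  have hinj' : Function.Injective (algebraMap v.O B) := by
    intro a b h
    apply hinj
    rw [IsScalarTower.algebraMap_apply v.O B L, IsScalarTower.algebraMap_apply v.O B L, h]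
  have htf : Module.IsTorsionFree v.O B := Module.isTorsionFree_iff_algebraMap_injective.2 hinj'
  have hfree : Module.Free v.O B := inferInstance
  have hsc : IsScalarTower k B L := by
    refine IsScalarTower.of_algebraMap_eq fun c => ?_
    rw [IsScalarTower.algebraMap_apply k v.O B, ← IsScalarTower.algebraMap_apply v.O B L,
      ← IsScalarTower.algebraMap_apply k v.O L]
  have hGB : IsGaloisGroup G v.O B := IsGaloisGroup.of_isFractionRing G v.O B K L
  let p := IsLocalRing.maximalIdeal v.O
  have hp0 : p ≠ ⊥ := IsDiscreteValuationRing.not_a_field v.O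
  obtain ⟨P, hPmax, hPl⟩ := Ideal.exists_maximal_ideal_liesOver_of_isIntegral (S := B) p
  have hP0 : P ≠ ⊥ := Ideal.ne_bot_of_liesOver_of_ne_bot hp0 P
  let P' : HeightOneSpectrum B := ⟨P, hPmax.isPrime, hP0⟩
  let v' : HeightOneSpectrum v.O := ⟨p, Ideal.IsMaximal.isPrime inferInstance, hp0⟩
  have hlo : P'.asIdeal.LiesOver v'.asIdeal := hPl
  let w : Place k L := placeOf P'
  -- `w` lies over `v`
  have h1 : ∀ f : K, v.Reg f → w.Reg (algebraMap K L f) := by
    intro f hf
    have := placeOf_reg (k := k) (L := L) P' (algebraMap v.O B ⟨f, hf⟩)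
    rwa [← IsScalarTower.algebraMap_apply v.O B L] at this
  have htp : (⟨t, htr⟩ : v.O) ∈ p := (mem_maximalIdeal_iff v _).2 (Or.inr ht.ge)
  have h2 : 0 < w.ord (algebraMap K L t) := by
    have h3 : w.red (algebraMap B L (algebraMap v.O B ⟨t, htr⟩)) = 0 := by
      rw [placeOf_red_eq_zero]
      have : (⟨t, htr⟩ : v.O) ∈ P.comap (algebraMap v.O B) := by
        rw [← Ideal.under_def, ← hPl.over]
        exact htp
      exact this
    rw [Place.red_eq_zero_iff _ (placeOf_reg _ _), ← IsScalarTower.algebraMap_apply v.O B L] at h3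
    exact h3.resolve_left htF
  have hover := over_of_reg w v t ht0 ht h1 h2
  -- the ramification index
  have hchar : CharZero p.ResidueField :=
    charZero_of_injective_ringHom ((algebraMap v.O p.ResidueField).comp (algebraMap k v.O)).injective
  have hcard : Nat.card (P.inertia G) = P.ramificationIdx v.O := by
    rw [Ideal.card_inertia_eq_ramificationIdxIn p P, Ideal.ramificationIdxIn_eq_ramificationIdx p P G]
  have hram : p.ramificationIdx' P = P.ramificationIdx v.O :=
    Ideal.ramificationIdx'_eq_ramificationIdx _ _ hp0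
  have hspan : p = Ideal.span {(⟨t, htr⟩ : v.O)} := (maximalIdeal_eq v ht0 ht htr).symm
  have he : (w.ord (algebraMap K L t)).toNat = Nat.card (P.inertia G) := by
    rw [hcard, ← hram]
    have h4 := HeightOneSpectrum.valuation_liesOver L v' P' (algebraMap v.O K ⟨t, htr⟩)
    have h5 : v'.valuation K (algebraMap v.O K ⟨t, htr⟩) = WithZero.exp (-1) := by
      rw [HeightOneSpectrum.valuation_of_algebraMap]
      refine v'.intValuation_singleton ?_ hspan
      intro h
      exact ht0 (congrArg Subtype.val h)
    rw [h5] at h4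
    have h6 : w.ord (algebraMap K L t) = - WithZero.log (P'.valuation L (algebraMap K L t)) := rfl
    have h7 : algebraMap K L (algebraMap v.O K ⟨t, htr⟩) = algebraMap K L t := rfl
    rw [h7] at h4
    rw [h6, ← h4, WithZero.log_pow, WithZero.log_exp]
    simp [v', P']
  refine ⟨w, _, P.inertia G, hover, he.symm, ?_⟩
  intro g hg z hz
  by_cases hz0 : z = 0
  · left; rw [hz0]; simp
  obtain ⟨n, d, hnd⟩ := P'.exists_primeCompl_mul_eq_of_integer z
    ((placeOf_nonneg P' hz0).1 (hz.resolve_left hz0))
  have hmem : ∀ b : B, b ∈ P → Ge w 1 (algebraMap B L b) := by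
    intro b hb
    have h3 : w.red (algebraMap B L b) = 0 := (placeOf_red_eq_zero (k := k) (L := L) P' b).2 hb
    rw [Place.red_eq_zero_iff _ (placeOf_reg _ _)] at h3
    exact h3
  have hregB : ∀ b : B, Ge w 0 (algebraMap B L b) := fun b => placeOf_reg P' b
  have hdu : ∀ d : B, d ∉ P → algebraMap B L d ≠ 0 ∧ w.ord (algebraMap B L d) = 0 := by
    intro d hd
    have h3 : w.red (algebraMap B L d) ≠ 0 := by
      rw [Ne, placeOf_red_eq_zero (k := k) (L := L) P' d]; exact hd
    rw [Ne, Place.red_eq_zero_iff _ (placeOf_reg _ _)] at h3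
    push Not at h3
    have h4 : 0 ≤ w.ord (algebraMap B L d) := (hregB d).resolve_left h3.1
    have h5 : w.ord (algebraMap B L d) ≤ 0 := h3.2
    exact ⟨h3.1, by omega⟩
  have hgB : ∀ b : B, algebraMap B L (g • b) = (g : L ≃ₐ[k] L) (algebraMap B L b) := fun b => rfl
  have hd1 := hdu (d : B) d.2
  have hgd : g • (d : B) ∉ P := by
    intro h
    apply d.2
    have h3 := P.sub_mem h (hg (d : B))
    simpa using h3
  have hd2 := hdu _ hgd
  rw [hgB] at hd2
  -- z = n / d
  have hzn : z = algebraMap B L n / algebraMap B L d := by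
    rw [eq_div_iff hd1.1]; exact hnd
  have hkey : (g : L ≃ₐ[k] L) z - z =
      (algebraMap B L (g • n - n) * algebraMap B L d - algebraMap B L n * algebraMap B L (g • (d : B) - d)) *
        ((g : L ≃ₐ[k] L) (algebraMap B L d) * algebraMap B L d)⁻¹ := by
    rw [hzn, map_div₀, map_sub, map_sub, hgB, hgB]
    have := hd1.1
    have := hd2.1
    field_simp
    ring
  rw [hkey]
  have h8 : Ge w 1 (algebraMap B L (g • n - n) * algebraMap B L d -
      algebraMap B L n * algebraMap B L (g • (d : B) - d)) := by
    have e1 := (hmem _ (hg n)).mul (hregB (d : B))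
    have e2 := (hregB n).mul (hmem _ (hg (d : B)))
    rw [add_zero] at e1
    rw [zero_add] at e2
    exact e1.sub e2
  have h9 : Ge w 0 ((g : L ≃ₐ[k] L) (algebraMap B L d) * algebraMap B L d)⁻¹ := by
    right
    rw [w.ord_inv, w.ord_mul hd2.1 hd1.1, hd1.2, hd2.2]; simp
  simpa using h8.mul h9

variable {G}

theorem Inert.ord_eq {w : Place k L} {g : L ≃ₐ[k] L} (hg : Inert w g) (z : L) :
    w.ord (g z) = w.ord z := by
  have h1 : w = w.comp g := by
    apply Place.eq_of_le
    intro f hf0 hf
    rw [Place.comp_ord]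
    have h2 : Ge w 0 f := Or.inr hf
    have h3 := ((hg f h2).mono (by omega : (0 : ℤ) ≤ 1)).add h2
    rw [sub_add_cancel] at h3
    exact h3.resolve_left (by simpa using hf0)
  have h2 := congrArg (fun w' : Place k L => w'.ord z) h1
  simp only [Place.comp_ord] at h2
  exact h2.symm

theorem Inert.ge {w : Place k L} {g : L ≃ₐ[k] L} (hg : Inert w g) {N : ℤ} {z : L} (hz : Ge w N z) :
    Ge w N (g z) := by
  rcases hz with hz | hz
  · left; rw [hz, map_zero]
  · right; rwa [hg.ord_eq]

/-- The character of the multiplicative group defined by an inert automorphism. -/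
noncomputable def phi (w : Place k L) (g : L ≃ₐ[k] L) (hg : Inert w g) : Lˣ →* w.RF where
  toFun z := w.red (g z / z)
  map_one' := by simp [w.red_one]
  map_mul' a b := by
    have ha : w.Reg (g a / a) := Or.inr (by
      rw [w.ord_div (by simp) (by simp), hg.ord_eq]; simp)
    have hb : w.Reg (g b / b) := Or.inr (by
      rw [w.ord_div (by simp) (by simp), hg.ord_eq]; simp)
    rw [← w.red_mul ha hb]
    congr 1
    push_cast
    rw [map_mul]
    have := a.ne_zero
    have := b.ne_zero
    field_simp

theorem phi_apply (w : Place k L) (g : L ≃ₐ[k] L) (hg : Inert w g) (z : Lˣ) :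
    phi w g hg z = w.red (g z / z) := rfl

theorem phi_eq_one_iff (w : Place k L) (g : L ≃ₐ[k] L) (hg : Inert w g) (z : Lˣ) :
    phi w g hg z = 1 ↔ Ge w (w.ord (z : L) + 1) (g z - z) := by
  have hz := z.ne_zero
  have hr : w.Reg (g z / z) := Or.inr (by
      rw [w.ord_div (by simp) (by simp), hg.ord_eq]; simp)
  have hr' : w.Reg (g z / z - 1) := by
    have := Ge.sub (P := w) (N := 0) hr Ge.one
    exact this
  rw [phi_apply, ← w.red_one, ← sub_eq_zero, ← w.red_sub hr w.reg_one, w.red_eq_zero_iff hr']
  have e : g z - z = z * (g z / z - 1) := by field_simp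
  constructor
  · intro h
    rw [e]
    have h1 : Ge w (w.ord (z : L)) (z : L) := Or.inr le_rfl
    have h2 : Ge w 1 (g z / z - 1) := by
      rcases h with h | h
      · exact Or.inl h
      · exact Or.inr h
    exact h1.mul h2
  · intro h
    rcases h with h | h
    · left
      rw [sub_eq_zero] at h
      rw [h, div_self hz, sub_self]
    · by_cases h0 : g z / z - 1 = 0
      · exact Or.inl h0
      · right
        rw [e, w.ord_mul hz h0] at h
        omega

theorem phi_unit (w : Place k L) (g : L ≃ₐ[k] L) (hg : Inert w g) (z : Lˣ)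
    (hz : w.ord (z : L) = 0) : phi w g hg z = 1 := by
  rw [phi_eq_one_iff, hz, zero_add]
  exact hg _ (Or.inr hz.ge)

theorem phi_units_eq (w : Place k L) (g : L ≃ₐ[k] L) (hg : Inert w g) (π : Lˣ)
    (hπ : w.ord (π : L) = 1) (z : Lˣ) :
    (phi w g hg).toHomUnits z = (phi w g hg).toHomUnits π ^ (w.ord (z : L)) := by
  have h1 : z = (z * π ^ (-(w.ord (z : L)))) * π ^ (w.ord (z : L)) := by
    rw [mul_assoc, ← zpow_add]; simp
  have h2 : (phi w g hg).toHomUnits (z * π ^ (-(w.ord (z : L)))) = 1 := by
    apply Units.ext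
    rw [MonoidHom.coe_toHomUnits]
    apply phi_unit
    push_cast
    rw [w.ord_mul z.ne_zero (zpow_ne_zero _ π.ne_zero), w.ord_zpow, hπ]
    ring
  calc (phi w g hg).toHomUnits z
      = (phi w g hg).toHomUnits ((z * π ^ (-(w.ord (z : L)))) * π ^ (w.ord (z : L))) := by
        rw [← h1]
    _ = _ := by rw [map_mul, h2, one_mul, map_zpow]

theorem phi_fixed (w : Place k L) (g : L ≃ₐ[k] L) (hg : Inert w g) (z : Lˣ)
    (hz : g (z : L) = z) : (phi w g hg).toHomUnits z = 1 := by
  apply Units.ext
  rw [MonoidHom.coe_toHomUnits, Units.val_one, phi_eq_one_iff, hz, sub_self]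
  exact Or.inl rfl

/-- An inert automorphism of finite order with trivial character is trivial. -/
theorem inert_eq_one [CharZero k] (w : Place k L) (g : L ≃ₐ[k] L) (hg : Inert w g)
    (hfin : IsOfFinOrder g) (h1 : ∀ z : Lˣ, phi w g hg z = 1) : g = 1 := by
  by_contra hne
  obtain ⟨z, hz⟩ : ∃ z, g z ≠ z := by
    by_contra hcon
    push Not at hcon
    exact hne (AlgEquiv.ext hcon)
  set y := g z - z with hy
  have hy0 : y ≠ 0 := sub_ne_zero.2 hz
  have hn := hfin.orderOf_pos
  set n := orderOf g with hnn
  have hsum : ∑ i ∈ Finset.range n, (g ^ i) y = 0 := by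
    have h2 : ∀ i, (g ^ i) y = (g ^ (i + 1)) z - (g ^ i) z := by
      intro i
      rw [hy, map_sub, pow_succ]; rfl
    simp only [h2]
    rw [Finset.sum_range_sub (fun i => (g ^ i) z), hnn, pow_orderOf_eq_one, pow_zero]
    simp
  have hstep : ∀ i : ℕ, Ge w (w.ord y + 1) ((g ^ i) y - y) := by
    intro i
    induction i with
    | zero => left; simp
    | succ i ih =>
      have e : (g ^ (i + 1)) y - y = g ((g ^ i) y - y) + (g y - y) := by
        have e0 : (g ^ (i + 1)) y = g ((g ^ i) y) := by rw [pow_succ']; rfl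
        rw [e0, map_sub g ((g ^ i) y) y]
        ring
      rw [e]
      refine (hg.ge ih).add ?_
      have := (phi_eq_one_iff w g hg (Units.mk0 y hy0)).1 (h1 _)
      simpa using this
  have h2 : (n : L) * y = - ∑ i ∈ Finset.range n, ((g ^ i) y - y) := by
    rw [Finset.sum_sub_distrib, hsum, zero_sub, neg_neg, Finset.sum_const, Finset.card_range,
      nsmul_eq_mul]
  have h3 : Ge w (w.ord y + 1) ((n : L) * y) := by
    rw [h2]
    exact (Ge.sum _ _ fun i _ => hstep i).neg
  have hnL : (n : L) ≠ 0 := by
    have : CharZero L := charZero_of_injective_algebraMap (algebraMap k L).injective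
    exact_mod_cast hn.ne'
  have hn0 : w.ord (n : L) = 0 := by
    have h4 : algebraMap k L (n : k) = (n : L) := by simp
    rw [← h4]
    apply w.ord_const
    exact_mod_cast hn.ne'
  have h4 := h3.resolve_left (mul_ne_zero hnL hy0)
  rw [w.ord_mul hnL hy0, hn0] at h4
  omega

/-- The inertia group is cyclic, and its generator acts as a rotation. -/
theorem exists_generator [CharZero k] [Finite G] (w : Place k L) (I : Subgroup G)
    (hI : ∀ g ∈ I, Inert w (g : L ≃ₐ[k] L)) :
    ∃ g ∈ I, orderOf (g : L ≃ₐ[k] L) = Nat.card I ∧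
      ∀ z : L, z ≠ 0 → (g : L ≃ₐ[k] L) z = z → (Nat.card I : ℤ) ∣ w.ord z := by
  classical
  obtain ⟨π, hπ0, hπ⟩ := w.surj
  let πu : Lˣ := Units.mk0 π hπ0
  let χ : I →* w.RF :=
    { toFun := fun g => phi w (g : L ≃ₐ[k] L) (hI g g.2) πu
      map_one' := by
        change w.red ((1 : L ≃ₐ[k] L) π / π) = 1
        rw [AlgEquiv.one_apply, div_self hπ0, w.red_one]
      map_mul' := by
        intro a b
        have ha := hI a a.2
        have hb := hI b b.2
        change w.red (((a : L ≃ₐ[k] L) * (b : L ≃ₐ[k] L)) π / π) =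
          w.red ((a : L ≃ₐ[k] L) π / π) * w.red ((b : L ≃ₐ[k] L) π / π)
        have h1 : w.Reg ((a : L ≃ₐ[k] L) π / π) := Or.inr (by
          rw [w.ord_div (by simpa using hπ0) hπ0, ha.ord_eq]; simp)
        have h2 : w.Reg ((b : L ≃ₐ[k] L) π / π) := Or.inr (by
          rw [w.ord_div (by simpa using hπ0) hπ0, hb.ord_eq]; simp)
        have h3 : w.Reg ((a : L ≃ₐ[k] L) ((b : L ≃ₐ[k] L) π / π)) := ha.ge (N := 0) h2
        have h4 : w.red ((a : L ≃ₐ[k] L) ((b : L ≃ₐ[k] L) π / π)) =
            w.red ((b : L ≃ₐ[k] L) π / π) := by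
          rw [← sub_eq_zero, ← w.red_sub h3 h2, w.red_eq_zero_iff]
          · rcases ha _ h2 with h | h
            · exact Or.inl h
            · exact Or.inr h
          · exact Ge.sub (P := w) (N := 0) h3 h2
        rw [← h4, mul_comm, ← w.red_mul h3 h1]
        congr 1
        rw [map_div₀]
        have : (a : L ≃ₐ[k] L) π ≠ 0 := by simpa using hπ0
        change (a : L ≃ₐ[k] L) ((b : L ≃ₐ[k] L) π) / π = _
        field_simp }
  have hinj : Function.Injective χ := by
    rw [injective_iff_map_eq_one]
    intro g hg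
    have h1 : ∀ z : Lˣ, phi w (g : L ≃ₐ[k] L) (hI g g.2) z = 1 := by
      intro z
      have h2 := phi_units_eq w (g : L ≃ₐ[k] L) (hI g g.2) πu hπ z
      have h3 : (phi w (g : L ≃ₐ[k] L) (hI g g.2)).toHomUnits πu = 1 := Units.ext hg
      rw [h3, one_zpow] at h2
      exact congrArg Units.val h2
    have hfo : IsOfFinOrder (g : L ≃ₐ[k] L) := by
      have h2 : IsOfFinOrder (g : G) := isOfFinOrder_of_finite (g : G)
      exact G.subtype.isOfFinOrder h2
    have h2 := inert_eq_one w (g : L ≃ₐ[k] L) (hI g g.2) hfo h1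
    apply Subtype.ext
    apply Subtype.ext
    exact h2
  have hcyc : IsCyclic I := isCyclic_of_injective_ringHom χ hinj
  obtain ⟨g, hg⟩ := hcyc.exists_ofOrder_eq_natCard
  have hord : orderOf (g : L ≃ₐ[k] L) = Nat.card I := by
    rw [← hg, Subgroup.orderOf_coe, Subgroup.orderOf_coe]
  refine ⟨g, g.2, hord, ?_⟩
  intro z hz0 hz
  have h1 := phi_fixed w (g : L ≃ₐ[k] L) (hI g g.2) (Units.mk0 z hz0) hz
  rw [phi_units_eq w _ _ πu hπ] at h1
  have h2 := orderOf_dvd_iff_zpow_eq_one.2 h1
  have h3 : orderOf ((phi w (g : L ≃ₐ[k] L) (hI g g.2)).toHomUnits πu) = Nat.card I := by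
    rw [← orderOf_units, MonoidHom.coe_toHomUnits]
    change orderOf (χ g) = _
    rw [orderOf_injective χ hinj, hg]
  rw [h3] at h2
  exact h2

end

end Pool.Agent.W619.PQ
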