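import Pool.Agent.Helper12.G.R_seed8.W619.PQ.Approx
import Pool.Agent.Helper12.G.R_seed8.Helper386.D5V.Helper399_FF4b

/-! The trace of an element which is idempotent modulo a place. -/

set_option autoImplicit false
set_option linter.overlappingInstances false
set_option linter.unusedSectionVars false

open Polynomial FF IsDedekindDomain

namespace Pool.Agent.W619.PQ

open Pool.Agent.W603.LV

section

variable {k K F : Type*} [Field k] [Field K] [Field F] [Algebra k K] [Algebra k F] [Algebra K F]
  [IsScalarTower k K F]

/-- The algebra structure of `F` over the valuation ring of a place of the subfield `K`. -/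
noncomputable abbrev algO (q : Place k K) : Algebra q.O F := ((algebraMap K F).comp q.O.subtype).toAlgebra

/-- The algebra structure of the valuation ring over the constants. -/
noncomputable abbrev algk (q : Place k K) : Algebra k q.O :=
  ((algebraMap k K).codRestrict q.O (fun c => q.reg_const c)).toAlgebra

theorem maximalIdeal_eq (q : Place k K) {t : K} (ht0 : t ≠ 0) (ht : q.ord t = 1)
    (htr : q.Reg t) :
    Ideal.span {(⟨t, htr⟩ : q.O)} = IsLocalRing.maximalIdeal q.O := by
  apply le_antisymm
  · rw [Ideal.span_le, Set.singleton_subset_iff]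
    show (⟨t, htr⟩ : q.O) ∈ IsLocalRing.maximalIdeal q.O
    rw [IsLocalRing.mem_maximalIdeal, mem_nonunits_iff, q.isUnit_O_iff htr]
    rintro ⟨_, h⟩
    omega
  · rintro ⟨f, hf⟩ hm
    rw [IsLocalRing.mem_maximalIdeal, mem_nonunits_iff, q.isUnit_O_iff hf] at hm
    rw [Ideal.mem_span_singleton]
    by_cases hf0 : f = 0
    · exact ⟨0, Subtype.ext (by simp [hf0])⟩
    · have h2 := (q.reg_iff hf0).1 hf
      have h3 : q.ord f ≠ 0 := fun h => hm ⟨hf0, h⟩
      have h4 : q.Reg (f / t) := by
        right
        rw [q.ord_div hf0 ht0, ht]
        omega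
      refine ⟨⟨f / t, h4⟩, Subtype.ext ?_⟩
      show f = t * (f / t)
      field_simp

theorem mem_maximalIdeal_iff (q : Place k K) (a : q.O) :
    a ∈ IsLocalRing.maximalIdeal q.O ↔ Ge q 1 (a : K) := by
  rw [IsLocalRing.mem_maximalIdeal, mem_nonunits_iff, q.isUnit_O_iff a.2]
  unfold Ge
  by_cases h : (a : K) = 0
  · simp [h]
  · have := (q.reg_iff h).1 a.2
    simp only [h, ne_eq, not_false_eq_true, true_and, false_or]
    omega

/-- An element regular at all places over `q` is integral over the valuation ring of `q`. -/
theorem isIntegral_of_reg [CharZero k] [FiniteDimensional K F] (q : Place k K) (z : F)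
    (hz : ∀ (w : Place k F) (e : ℕ), Over w q e → Ge w 0 z) :
    letI := algO (F := F) q
    IsIntegral q.O z := by
  classical
  let iA : Algebra q.O F := algO q
  let ik : Algebra k q.O := algk q
  obtain ⟨t, ht0, ht⟩ := q.surj
  have htr : q.Reg t := Or.inr (by omega)
  have : IsDiscreteValuationRing q.O := q.isDVR
  have : CharZero K := charZero_of_injective_algebraMap (algebraMap k K).injective
  have : IsScalarTower q.O K F := IsScalarTower.of_algebraMap_eq fun _ => rfl
  have : IsScalarTower k q.O F := IsScalarTower.of_algebraMap_eq fun c => by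
    rw [IsScalarTower.algebraMap_apply k K F]
    rfl
  let B := integralClosure q.O F
  have : IsDedekindDomain B := integralClosure.isDedekindDomain q.O K F
  have : IsFractionRing B F := integralClosure.isFractionRing_of_finite_extension K F
  have hsc : IsScalarTower k B F := by
    refine IsScalarTower.of_algebraMap_eq fun c => ?_
    rw [IsScalarTower.algebraMap_apply k q.O B, ← IsScalarTower.algebraMap_apply q.O B F,
      ← IsScalarTower.algebraMap_apply k q.O F]
  have key : z ∈ (algebraMap B F).range := by
    apply HeightOneSpectrum.mem_integers_of_valuation_le_one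
    intro P
    by_cases hz0 : z = 0
    · rw [hz0, map_zero]; exact zero_le_one
    rw [← placeOf_nonneg (k := k) (L := F) P hz0]
    -- the place lies over q
    have h1 : ∀ f : K, q.Reg f → (placeOf (k := k) (L := F) P).Reg (algebraMap K F f) := by
      intro f hf
      have := placeOf_reg (k := k) (L := F) P (algebraMap q.O B ⟨f, hf⟩)
      rwa [← IsScalarTower.algebraMap_apply q.O B F] at this
    have h2 : 0 < (placeOf (k := k) (L := F) P).ord (algebraMap K F t) := by
      have htF : algebraMap K F t ≠ 0 := by simpa using ht0
      have h3 : (placeOf (k := k) (L := F) P).red (algebraMap B F (algebraMap q.O B ⟨t, htr⟩)) = 0 := by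
        rw [placeOf_red_eq_zero]
        -- P ∩ O is the maximal ideal
        have hne : P.asIdeal.comap (algebraMap q.O B) ≠ ⊥ := by
          apply Ideal.comap_ne_bot_of_integral_mem (x := _) ?_ ?_ (integralClosure.isIntegral _) 
          · exact (Submodule.ne_bot_iff _).1 P.ne_bot |>.choose
          · exact ((Submodule.ne_bot_iff _).1 P.ne_bot).choose_spec.2
          · exact ((Submodule.ne_bot_iff _).1 P.ne_bot).choose_spec.1
        have hprime : (P.asIdeal.comap (algebraMap q.O B)).IsPrime :=
          Ideal.IsPrime.comap _ (hK := P.isPrime)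
        have hmax : (P.asIdeal.comap (algebraMap q.O B)).IsMaximal := hprime.isMaximal hne
        have heq := IsLocalRing.eq_maximalIdeal hmax
        have : (⟨t, htr⟩ : q.O) ∈ P.asIdeal.comap (algebraMap q.O B) := by
          rw [heq, mem_maximalIdeal_iff]
          exact Or.inr ht.ge
        exact this
      rw [Place.red_eq_zero_iff _ (placeOf_reg _ _), ← IsScalarTower.algebraMap_apply q.O B F] at h3
      exact h3.resolve_left htF
    have h4 := over_of_reg (placeOf (k := k) (L := F) P) q t ht0 ht h1 h2
    exact (hz _ _ h4).resolve_left hz0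
  obtain ⟨b, rfl⟩ := key
  exact b.2

theorem trace_unit [CharZero k] [FiniteDimensional K F] (q : Place k K) (y : F)
    (hy : ∀ (w : Place k F) (e : ℕ), Over w q e → Ge w e (y ^ 2 - y))
    (hy0 : ∀ (w : Place k F) (e : ℕ), Over w q e → Ge w 0 y)
    (w1 : Place k F) (e1 : ℕ) (h1 : Over w1 q e1) (hy1 : Ge w1 1 (y - 1)) :
    ¬ Ge q 1 (Algebra.trace K F y) := by
  classical
  let iA : Algebra q.O F := algO q
  let ik : Algebra k q.O := algk q
  obtain ⟨t, ht0, ht⟩ := q.surj
  have htr : q.Reg t := Or.inr (by omega)
  have htF : algebraMap K F t ≠ 0 := by simpa using ht0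
  have : IsDiscreteValuationRing q.O := q.isDVR
  have : CharZero K := charZero_of_injective_algebraMap (algebraMap k K).injective
  have : IsScalarTower q.O K F := IsScalarTower.of_algebraMap_eq fun _ => rfl
  have : IsScalarTower k q.O F := IsScalarTower.of_algebraMap_eq fun c => by
    rw [IsScalarTower.algebraMap_apply k K F]
    rfl
  let B := integralClosure q.O F
  have : IsDedekindDomain B := integralClosure.isDedekindDomain q.O K F
  have : IsFractionRing B F := integralClosure.isFractionRing_of_finite_extension K F
  have hfin : Module.Finite q.O B := IsIntegralClosure.finite q.O K F B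
  have hinj : Function.Injective (algebraMap q.O F) := by
    rw [IsScalarTower.algebraMap_eq q.O K F]
    exact (algebraMap K F).injective.comp (IsFractionRing.injective q.O K)
  have htf : Module.IsTorsionFree q.O B := by
    have hinj' : Function.Injective (algebraMap q.O B) := by
      intro a b h
      apply hinj
      rw [IsScalarTower.algebraMap_apply q.O B F, IsScalarTower.algebraMap_apply q.O B F, h]
    exact Module.isTorsionFree_iff_algebraMap_injective.2 hinj'
  have hfree : Module.Free q.O B := inferInstance
  -- `y` and `(y ^ 2 - y) / t` are integral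
  have hyB : IsIntegral q.O y := isIntegral_of_reg q y hy0
  have hzB : IsIntegral q.O ((y ^ 2 - y) / algebraMap K F t) := by
    refine isIntegral_of_reg q _ fun w e hwe => ?_
    have h2 := hy w e hwe
    by_cases h3 : y ^ 2 - y = 0
    · left; rw [h3, zero_div]
    · right
      rw [w.ord_div h3 htF, hwe.2, ht]
      have := h2.resolve_left h3
      omega
  let yB : B := ⟨y, hyB⟩
  let zB : B := ⟨(y ^ 2 - y) / algebraMap K F t, hzB⟩
  let tA : q.O := ⟨t, htr⟩
  have hmul : yB ^ 2 - yB = algebraMap q.O B tA * zB := by
    apply Subtype.ext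
    change y ^ 2 - y = algebraMap K F t * ((y ^ 2 - y) / algebraMap K F t)
    field_simp
  intro hcon
  -- trace over the valuation ring
  have htrace : algebraMap q.O K (Algebra.trace q.O B yB) = Algebra.trace K F y := by
    rw [← Algebra.intTrace_eq_trace, Algebra.algebraMap_intTrace (L := F)]
    rfl
  have hmem : Algebra.trace q.O B yB ∈ IsLocalRing.maximalIdeal q.O := by
    rw [mem_maximalIdeal_iff]
    change Ge q 1 (algebraMap q.O K (Algebra.trace q.O B yB))
    rw [htrace]; exact hcon
  let p := IsLocalRing.maximalIdeal q.O
  let _ : Field (q.O ⧸ p) := Ideal.Quotient.field p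
  have hchar : CharZero (q.O ⧸ p) := by
    have : Function.Injective ((Ideal.Quotient.mk p).comp (algebraMap k q.O)) :=
      ((Ideal.Quotient.mk p).comp (algebraMap k q.O)).injective
    exact charZero_of_injective_ringHom this
  have hq := Algebra.trace_quotient_mk (R := q.O) (S := B) yB
  rw [Ideal.Quotient.eq_zero_iff_mem.2 hmem] at hq
  have hzero : Ideal.Quotient.mk (Ideal.map (algebraMap q.O B) p) yB = 0 := by
    have hidem : IsIdempotentElem (Algebra.lmul (q.O ⧸ p) (B ⧸ Ideal.map (algebraMap q.O B) p)
        (Ideal.Quotient.mk (Ideal.map (algebraMap q.O B) p) yB)) := by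
      rw [IsIdempotentElem, ← map_mul]
      congr 1
      rw [← map_mul, Ideal.Quotient.eq, ← pow_two, hmul]
      exact Ideal.mul_mem_right _ _ (Ideal.mem_map_of_mem _
        ((mem_maximalIdeal_iff q tA).2 (Or.inr ht.ge)))
    have h5 := (LinearMap.IsIdempotentElem.trace_eq_zero_iff hidem).1 hq
    have h6 := congrArg (fun f => f 1) h5
    simpa using h6
  rw [Ideal.Quotient.eq_zero_iff_mem] at hzero
  have hspan : p = Ideal.span {tA} := (maximalIdeal_eq q ht0 ht htr).symm
  rw [hspan, Ideal.map_span, Set.image_singleton, Ideal.mem_span_singleton] at hzero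
  obtain ⟨c, hc⟩ := hzero
  have hc' : y = algebraMap K F t * (c : F) := congrArg Subtype.val hc
  have hcr : Ge w1 0 (c : F) := w1.reg_of_isIntegral (A := q.O) (fun a => h1.reg.2 a.2) c.2
  have h7 : Ge w1 1 y := by
    rw [hc']
    have h8 : Ge w1 1 (algebraMap K F t) := by
      right
      rw [h1.2, ht]
      have := h1.1
      omega
    simpa using h8.mul hcr
  have h9 : Ge w1 1 (1 : F) := by
    have := h7.sub hy1
    simpa using this
  have h10 := h9.resolve_left one_ne_zero
  rw [w1.ord_one] at h10
  omega

end

end Pool.Agent.W619.PQ
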